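import Mathlib

set_option autoImplicit false

namespace Pool.Agent.Results.MP_df7fe8_co.Cex

inductive L : Type
  | b (n : ℕ)
  | a (F : Finset (ℕ → ℕ))
  | c (g : ℕ → ℕ) (n i : ℕ) (h : i < g n)

open L

def le : L → L → Prop
  | b n, b m => m ≤ n
  | b _, a _ => True
  | b n, c _ m _ _ => m ≤ n
  | a _, b _ => False
  | a F, a G => F ⊆ G
  | a _, c _ _ _ _ => False
  | c _ _ _ _, b _ => False
  | c g _ _ _, a F => g ∈ F
  | c g n i _, c h m j _ => g = h ∧ n = m ∧ i ≤ j

instance po : PartialOrder L where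
  le := le
  le_refl x := by cases x <;> simp [le]
  le_trans x y z := by
    cases x <;> cases y <;> cases z <;> simp only [le] <;> grind
  le_antisymm x y := by
    cases x <;> cases y <;> simp only [le] <;> grind

lemma le_def (x y : L) : x ≤ y ↔ le x y := Iff.rfl

def up : L → Finset (ℕ → ℕ)
  | b _ => ∅
  | a F => F
  | c g _ _ _ => {g}

def dn : L → ℕ
  | b n => n
  | a _ => 0
  | c _ n _ _ => n

lemma lub (x y : L) : ∃ s, IsLUB {x, y} s := by
  classical
  by_cases h1 : x ≤ y
  · exact ⟨y, by simp [upperBounds, h1], fun z hz => hz (by simp)⟩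
  by_cases h2 : y ≤ x
  · exact ⟨x, by simp [upperBounds, h2], fun z hz => hz (by simp)⟩
  refine ⟨a (up x ∪ up y), ?_, fun z hz => ?_⟩
  · cases x <;> cases y <;> simp [upperBounds, le_def, le, up]
  · have e1 := hz (a := x) (by simp)
    have e2 := hz (a := y) (by simp)
    cases x <;> cases y <;> cases z <;> simp only [le_def, le, up] at * <;> grind

lemma glb (x y : L) : ∃ s, IsGLB {x, y} s := by
  classical
  by_cases h1 : x ≤ y
  · exact ⟨x, by simp [lowerBounds, h1], fun z hz => hz (by simp)⟩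
  by_cases h2 : y ≤ x
  · exact ⟨y, by simp [lowerBounds, h2], fun z hz => hz (by simp)⟩
  by_cases h3 : ∃ F G, x = a F ∧ y = a G
  · obtain ⟨F, G, rfl, rfl⟩ := h3
    refine ⟨a (F ∩ G), by simp [lowerBounds, le_def, le], fun z hz => ?_⟩
    have e1 := hz (a := a F) (by simp)
    have e2 := hz (a := a G) (by simp)
    cases z <;> simp only [le_def, le] at * <;> grind
  refine ⟨b (max (dn x) (dn y)), ?_, fun z hz => ?_⟩
  · cases x <;> cases y <;> simp [lowerBounds, le_def, le, dn]
  · have e1 := hz (a := x) (by simp)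
    have e2 := hz (a := y) (by simp)
    cases x <;> cases y <;> cases z <;> simp only [le_def, le, dn] at * <;> grind

noncomputable instance lat : Lattice L :=
  Lattice.ofIsLUBofIsGLB (fun x y => (lub x y).choose) (fun x y => (glb x y).choose)
    (fun x y => (lub x y).choose_spec) (fun x y => (glb x y).choose_spec)

lemma fin (x y : L) : (Set.Icc x y).Finite := by
  classical
  have h1 : Set.Icc x y ⊆ Set.Icc (b (dn x)) (a (up y)) := by
    apply Set.Icc_subset_Icc
    · cases x <;> simp [le_def, le, dn]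
    · cases y <;> simp [le_def, le, up]
  refine Set.Finite.subset ?_ h1
  generalize dn x = n
  generalize up y = F
  have f1 : (b '' Set.Iic n).Finite := (Set.finite_Iic n).image _
  have f2 : (a '' Set.Iic F).Finite := (Set.finite_Iic F).image _
  have f3 : (⋃ g ∈ (F : Set (ℕ → ℕ)), ⋃ m ∈ Set.Iic n,
      Set.range (fun i : Fin (g m) => c g m i i.2)).Finite :=
    F.finite_toSet.biUnion fun g _ => (Set.finite_Iic n).biUnion fun m _ => Set.finite_range _
  refine ((f1.union f2).union f3).subset ?_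
  rintro z ⟨h1, h2⟩
  cases z with
  | b m => exact Or.inl (Or.inl ⟨m, h1, rfl⟩)
  | a G => exact Or.inl (Or.inr ⟨G, h2, rfl⟩)
  | c g m i h => exact Or.inr (Set.mem_biUnion h2 (Set.mem_biUnion h1 ⟨⟨i, h⟩, rfl⟩))

theorem result : ∃ (L : Type) (_ : Lattice L),
    (∀ x y : L, x ≤ y → ∃ n : ℕ, ∀ s : Set L, s ⊆ Set.Icc x y → IsChain (· ≤ ·) s →
      s.encard ≤ n + 1) ∧ ¬∃ f : L → ℤ, StrictMono f := by
  refine ⟨L, lat, fun x y _ => ⟨(Set.Icc x y).ncard, fun s hs _ => ?_⟩, ?_⟩
  · rw [(fin x y).cast_ncard_eq]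
    exact (Set.encard_le_encard hs).trans le_self_add
  rintro ⟨f, hf⟩
  let g : ℕ → ℕ := fun n => n + (f (b n)).natAbs + 1
  have lt : ∀ x y : L, le x y → ¬le y x → f x < f y := fun x y h1 h2 =>
    hf (lt_of_le_not_ge h1 h2)
  have key : ∀ n i (h : i < g n), f (b n) + i < f (c g n i h) := by
    intro n i
    induction i with
    | zero => intro h; simpa using lt (b n) (c g n 0 h) (by simp [le]) (by simp [le])
    | succ i ih =>
      intro h
      have := ih (by omega)
      have := lt (c g n i (by omega)) (c g n (i + 1) h) (by simp [le]) (by simp [le])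
      push_cast; omega
  have k2 := key (f (a {g})).natAbs ((f (a {g})).natAbs + (f (b (f (a {g})).natAbs)).natAbs)
    (Nat.lt_succ_self _)
  have k3 := lt (c g (f (a {g})).natAbs ((f (a {g})).natAbs + (f (b (f (a {g})).natAbs)).natAbs)
    (Nat.lt_succ_self _)) (a {g}) (by simp [le]) (by simp [le])
  omega

end Pool.Agent.Results.MP_df7fe8_co.Cex
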